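import Mathlib
import Pool.Agent.W247.ET.Stm

/-!
# Project ET, part VD: the quadratic form of the kernel is at most half of the diagonal form
-/

set_option autoImplicit false

open Finset Pool.Agent.W247.ET

namespace Pool.Agent.W253.ET.VD

/-- telescoping -/
lemma tele (f F : ℕ → ℝ) (h : ∀ m, f (m + 1) ≤ F m - F (m + 1)) (L : ℕ) :
    ∑ m ∈ Icc 1 L, f m ≤ F 0 - F L := by
  induction L with
  | zero => simp
  | succ L ih =>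
    rw [Finset.sum_Icc_succ_top (by omega)]
    have := h L
    linarith

lemma sum_a (n L : ℕ) (hn : 1 ≤ n) :
    ∑ m ∈ Icc 1 L, 1 / ((n : ℝ) + m) ^ 2 ≤ 1 / (n : ℝ) := by
  have hn' : (1 : ℝ) ≤ n := by exact_mod_cast hn
  have h := tele (fun m => 1 / ((n : ℝ) + m) ^ 2) (fun m => 1 / ((n : ℝ) + m)) (fun m => by
    have hm : (0 : ℝ) ≤ m := Nat.cast_nonneg m
    push_cast
    have e : 1 / ((n : ℝ) + m) - 1 / ((n : ℝ) + (m + 1)) =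
        1 / (((n : ℝ) + m) * ((n : ℝ) + (m + 1))) := by
      field_simp
      ring
    rw [e]
    apply one_div_le_one_div_of_le (by positivity)
    nlinarith) L
  refine h.trans ?_
  have : (0 : ℝ) ≤ 1 / ((n : ℝ) + L) := by positivity
  simp only [Nat.cast_zero, add_zero]
  linarith

lemma sum_b (n L : ℕ) (hn : 1 ≤ n) :
    ∑ m ∈ Icc 1 L, (m : ℝ) / ((n : ℝ) + m) ^ 4 ≤ 1 / (6 * (n : ℝ) ^ 2) + 1 / (n : ℝ) ^ 3 := by
  have hn' : (1 : ℝ) ≤ n := by exact_mod_cast hn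
  have h := tele (fun m => (m : ℝ) / ((n : ℝ) + m) ^ 4)
    (fun m => 1 / (2 * ((n : ℝ) + m) ^ 2) - n / (3 * ((n : ℝ) + m) ^ 3) + 1 / ((n : ℝ) + m) ^ 3)
    (fun m => by
    have hm : (0 : ℝ) ≤ m := Nat.cast_nonneg m
    push_cast
    obtain ⟨s, hs⟩ : ∃ s : ℝ, s = (n : ℝ) + m := ⟨_, rfl⟩
    have hs1 : (n : ℝ) ≤ s := by linarith
    have e1 : (n : ℝ) + (m + 1) = s + 1 := by linarith
    have e2 : (m : ℝ) = s - n := by linarith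
    rw [e1, ← hs, e2]
    have hs0 : 0 < s := by linarith
    rw [← sub_nonneg]
    have e3 : 1 / (2 * s ^ 2) - (n : ℝ) / (3 * s ^ 3) + 1 / s ^ 3 -
        (1 / (2 * (s + 1) ^ 2) - (n : ℝ) / (3 * (s + 1) ^ 3) + 1 / (s + 1) ^ 3) -
        (s - n + 1) / (s + 1) ^ 4 =
        (3 * s * (s + 1) ^ 4 - 2 * n * (s + 1) ^ 4 + 6 * (s + 1) ^ 4 -
          (3 * s ^ 3 * (s + 1) ^ 2 - 2 * n * s ^ 3 * (s + 1) + 6 * s ^ 3 * (s + 1)) -
          6 * s ^ 3 * (s - n + 1)) / (6 * s ^ 3 * (s + 1) ^ 4) := by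
      field_simp
      ring
    rw [e3]
    apply div_nonneg _ (by positivity)
    nlinarith [mul_nonneg (sub_nonneg.2 hs1) (by positivity : (0 : ℝ) ≤ s ^ 2),
      mul_nonneg (sub_nonneg.2 hs1) (by positivity : (0 : ℝ) ≤ s),
      mul_nonneg (sub_nonneg.2 hs1) (by positivity : (0 : ℝ) ≤ s ^ 3),
      sub_nonneg.2 hs1, hs0, pow_pos hs0 2, pow_pos hs0 3, pow_pos hs0 4]) L
  refine h.trans ?_
  have h1 : (0 : ℝ) ≤ 1 / (2 * ((n : ℝ) + L) ^ 2) - n / (3 * ((n : ℝ) + L) ^ 3) := by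
    have hL : (0 : ℝ) ≤ L := Nat.cast_nonneg L
    rw [sub_nonneg, div_le_div_iff₀ (by positivity) (by positivity)]
    nlinarith [pow_pos (by linarith : (0 : ℝ) < (n : ℝ) + L) 2]
  have h2 : (0 : ℝ) ≤ 1 / ((n : ℝ) + L) ^ 3 := by positivity
  simp only [Nat.cast_zero, add_zero]
  have h3 : 1 / (2 * (n : ℝ) ^ 2) - n / (3 * (n : ℝ) ^ 3) = 1 / (6 * (n : ℝ) ^ 2) := by
    field_simp
    norm_num
  linarith

lemma kap_abs (n m : ℕ) : |kap n m| ≤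
    3 / 2 * (n : ℝ) * ((m : ℝ) / ((n : ℝ) + m) ^ 4) + 1 / 4 * (1 / ((n : ℝ) + m) ^ 2) := by
  unfold kap
  have h1 : (0 : ℝ) ≤ 3 / 2 * ((n : ℝ) * m) / ((n : ℝ) + m) ^ 4 := by positivity
  have h2 : (0 : ℝ) ≤ 1 / (4 * ((n : ℝ) + m) ^ 2) := by positivity
  have e1 : 3 / 2 * ((n : ℝ) * m) / ((n : ℝ) + m) ^ 4 =
      3 / 2 * (n : ℝ) * ((m : ℝ) / ((n : ℝ) + m) ^ 4) := by ring
  have e2 : 1 / (4 * ((n : ℝ) + m) ^ 2) = 1 / 4 * (1 / ((n : ℝ) + m) ^ 2) := by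
    rw [one_div_mul_one_div]
  rw [← e1, ← e2, abs_le]
  constructor <;> linarith

lemma row (n L : ℕ) (hn : 1 ≤ n) :
    ∑ m ∈ Icc 1 L, |kap n m| ≤ 1 / 2 * (1 / (n : ℝ)) + 3 / 2 * (1 / (n : ℝ) ^ 2) := by
  have hn' : (1 : ℝ) ≤ n := by exact_mod_cast hn
  calc ∑ m ∈ Icc 1 L, |kap n m| ≤ ∑ m ∈ Icc 1 L,
        (3 / 2 * (n : ℝ) * ((m : ℝ) / ((n : ℝ) + m) ^ 4) + 1 / 4 * (1 / ((n : ℝ) + m) ^ 2)) :=
        Finset.sum_le_sum fun m _ => kap_abs n m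
    _ = 3 / 2 * (n : ℝ) * ∑ m ∈ Icc 1 L, (m : ℝ) / ((n : ℝ) + m) ^ 4 +
        1 / 4 * ∑ m ∈ Icc 1 L, 1 / ((n : ℝ) + m) ^ 2 := by
        rw [Finset.sum_add_distrib, Finset.mul_sum, Finset.mul_sum]
    _ ≤ 3 / 2 * (n : ℝ) * (1 / (6 * (n : ℝ) ^ 2) + 1 / (n : ℝ) ^ 3) + 1 / 4 * (1 / (n : ℝ)) :=
        add_le_add (mul_le_mul_of_nonneg_left (sum_b n L hn) (by positivity))
          (mul_le_mul_of_nonneg_left (sum_a n L hn) (by norm_num))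
    _ = _ := by
        field_simp
        ring

lemma kap_symm (n m : ℕ) : kap n m = kap m n := by
  unfold kap
  rw [mul_comm (n : ℝ) m, add_comm (n : ℝ) m]

lemma sum_c (L : ℕ) : ∑ n ∈ Icc 1 L, 1 / (n : ℝ) ^ 2 ≤ 2 := by
  have h := tele (fun n => 1 / (n : ℝ) ^ 2) (fun m => 2 / ((m : ℝ) + 1)) (fun m => by
    have hm : (0 : ℝ) ≤ m := Nat.cast_nonneg m
    push_cast
    have e : 2 / ((m : ℝ) + 1) - 2 / ((m : ℝ) + 1 + 1) =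
        2 / (((m : ℝ) + 1) * ((m : ℝ) + 2)) := by
      field_simp
      ring
    rw [e, div_le_div_iff₀ (by positivity) (by positivity)]
    nlinarith) L
  refine h.trans ?_
  have : (0 : ℝ) ≤ 2 / ((L : ℝ) + 1) := by positivity
  simp only [Nat.cast_zero, zero_add]
  linarith

theorem main : VD_stmt := by
  intro K
  refine ⟨3 * K ^ 2, fun d L hd => ?_⟩
  have hd2 : ∀ n, d n ^ 2 ≤ K ^ 2 := by
    intro n
    rw [← sq_abs (d n)]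
    exact pow_le_pow_left₀ (abs_nonneg _) (hd n) 2
  have h1 : ∑ n ∈ Icc 1 L, ∑ m ∈ Icc 1 L, d n * d m * kap n m ≤
      ∑ n ∈ Icc 1 L, ∑ m ∈ Icc 1 L, (1 / 2 * (d n ^ 2 * |kap n m|) +
        1 / 2 * (d m ^ 2 * |kap n m|)) := by
    refine Finset.sum_le_sum fun n _ => Finset.sum_le_sum fun m _ => ?_
    have h2 : d n * d m * kap n m ≤ |d n * d m| * |kap n m| := by
      rw [← abs_mul]; exact le_abs_self _
    have h3 : |d n * d m| ≤ 1 / 2 * (d n ^ 2 + d m ^ 2) := by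
      rw [abs_mul]
      nlinarith [sq_nonneg (|d n| - |d m|), sq_abs (d n), sq_abs (d m)]
    have h4 := mul_le_mul_of_nonneg_right h3 (abs_nonneg (kap n m))
    linarith
  have h2 : ∑ n ∈ Icc 1 L, ∑ m ∈ Icc 1 L, (1 / 2 * (d n ^ 2 * |kap n m|) +
        1 / 2 * (d m ^ 2 * |kap n m|)) =
      ∑ n ∈ Icc 1 L, d n ^ 2 * ∑ m ∈ Icc 1 L, |kap n m| := by
    have e1 : ∑ n ∈ Icc 1 L, ∑ m ∈ Icc 1 L, 1 / 2 * (d m ^ 2 * |kap n m|) =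
        ∑ n ∈ Icc 1 L, ∑ m ∈ Icc 1 L, 1 / 2 * (d n ^ 2 * |kap n m|) := by
      rw [Finset.sum_comm]
      refine Finset.sum_congr rfl fun n _ => Finset.sum_congr rfl fun m _ => ?_
      rw [kap_symm]
    simp only [Finset.sum_add_distrib]
    rw [e1, ← Finset.sum_add_distrib]
    refine Finset.sum_congr rfl fun n _ => ?_
    rw [← Finset.mul_sum, ← Finset.mul_sum]
    ring
  have h3 : ∑ n ∈ Icc 1 L, d n ^ 2 * ∑ m ∈ Icc 1 L, |kap n m| ≤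
      ∑ n ∈ Icc 1 L, (1 / 2 * (d n ^ 2 / n) + 3 / 2 * K ^ 2 * (1 / (n : ℝ) ^ 2)) := by
    refine Finset.sum_le_sum fun n hn => ?_
    have hn1 : 1 ≤ n := (Finset.mem_Icc.1 hn).1
    have h4 := mul_le_mul_of_nonneg_left (row n L hn1) (sq_nonneg (d n))
    have h5 : d n ^ 2 * (3 / 2 * (1 / (n : ℝ) ^ 2)) ≤ K ^ 2 * (3 / 2 * (1 / (n : ℝ) ^ 2)) :=
      mul_le_mul_of_nonneg_right (hd2 n) (by positivity)
    have e : d n ^ 2 * (1 / 2 * (1 / (n : ℝ))) = 1 / 2 * (d n ^ 2 / n) := by ring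
    linarith
  have h4 : ∑ n ∈ Icc 1 L, (1 / 2 * (d n ^ 2 / n) + 3 / 2 * K ^ 2 * (1 / (n : ℝ) ^ 2)) =
      1 / 2 * ∑ n ∈ Icc 1 L, d n ^ 2 / n + 3 / 2 * K ^ 2 * ∑ n ∈ Icc 1 L, 1 / (n : ℝ) ^ 2 := by
    rw [Finset.sum_add_distrib, Finset.mul_sum, Finset.mul_sum]
  have h5 : 3 / 2 * K ^ 2 * ∑ n ∈ Icc 1 L, 1 / (n : ℝ) ^ 2 ≤ 3 / 2 * K ^ 2 * 2 :=
    mul_le_mul_of_nonneg_left (sum_c L) (by positivity)
  rw [h2] at h1
  rw [h4] at h3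
  linarith

end Pool.Agent.W253.ET.VD
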